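import Pool.Agent.H386.Defs
import Pool.Agent.H386.Bridge
import Pool.Agent.H386.Num5

/-!
No spherical fusion category over the complex numbers has global dimension strictly between
`(5 - sqrt 5) / 2` (the global dimension of the Yang-Lee category) and `sqrt 2`.

`sphericalDims` (in `Pool.Agent.H386.Defs`) is the set of all real numbers which are global
dimensions of spherical fusion categories over the complex numbers.

Outline of the proof (all of it is formalised, no hypothesis is assumed).

* For a spherical fusion category `C` and simple objects `Z` of its Drinfeld centre with twists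
  `theta_Z` put `p_Z = (dim Z / dim C)^2`.  Then `sum p_Z = 1`, `sum p_Z theta_Z = 1 / dim C`,
  `sum p_Z theta_Z^2 = (1 / dim C) * sum_V nu_2(V) dim V`, and every character `chi` of the
  Grothendieck ring with formal codegree `f = sum_V |chi(V)|^2` gives mass at least `1 / f^2` at
  `theta = 1`.
* The test function `(1 + cos)^2` gives
  `8 dim C / f^2 <= 3 dim C + 4 + sum_V nu_2(V) dim V`.
* This is applied to all Galois conjugates of `C`, with `chi` the dimension character of `C`;
  averaging over the conjugates shows that the rank is at most `4` if `dim C < sqrt 2`,
  and bounds all conjugates of `dim C` by `10.28`.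
* The conjugates `D_i` of `dim C` satisfy `sum 1 / D_i <= 1` and all ratios `D_i / D_j` are
  algebraic integers; a finite check finishes the proof.
-/

set_option autoImplicit false

namespace Pool.Agent.Results.MP_152d63_al.GapBelowSqrtTwo

universe v u

open Pool.Agent.H386

/-- Every spherical fusion category over `ℂ` has global dimension at most `(5 - √5) / 2` or at
least `√2`. -/
theorem result : ∀ x ∈ sphericalDims.{v, u}, ¬ ((5 - Real.sqrt 5) / 2 < x ∧ x < Real.sqrt 2) := by
  rintro x hx ⟨h1, h2⟩
  obtain ⟨n, d, ν, H, rfl⟩ := exists_dimData hx
  exact H.gap h1 h2

end Pool.Agent.Results.MP_152d63_al.GapBelowSqrtTwo
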